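import Pool.Agent.Helper22.M.W4
import Pool.Agent.Helper79.M.W3
import Pool.Agent.Helper79.L.FR

/-!
# Project M, block W4, unconditional
-/

set_option autoImplicit false

namespace Pool.Agent.Helper22.M

/-- **BLOCK W4.** -/
theorem w4 : Pool.Agent.M.StmtW4 := w4_of Pool.Agent.M.w3 Pool.Agent.L.stmtFR

end Pool.Agent.Helper22.M
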