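import Pool.Agent.Helper22.M.W4a
import Pool.Agent.Helper13.M.Defs
import Pool.Agent.Helper29.L.K5
import Pool.Agent.Helper99.M.MU
import Pool.Agent.Helper71.L.AR

/-!
# Project M, block W4: every open coset contains an element with finitely many fixed classes
-/

set_option autoImplicit false

namespace Pool.Agent.Helper22.M

open VC IntermediateField NumberField IsDedekindDomain Pool.Agent.SC Pool.Agent.L Pool.Agent.M
open Pool.Agent.HG (Pr nm)

/-! ## The choice of the prime -/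

theorem exists_B22 (L : Type) [Field L] [NumberField L] :
    ∃ B : ℕ → Finset (Pr L), ∀ x v, v ∈ B x ↔ nm v ≤ x := by
  have h : ∀ x : ℕ, {v : Pr L | nm v ≤ x}.Finite := fun x => by
    refine Set.Finite.of_injOn (f := fun v : Pr L => v.asIdeal)
      (t := {I : Ideal (𝓞 L) | Ideal.absNorm I ≤ x}) ?_ ?_ ?_
    · intro v hv
      exact hv
    · intro v _ w _ hvw
      exact HeightOneSpectrum.ext hvw
    · exact Ideal.finite_setOfPred_absNorm_le x
  exact ⟨fun x => (h x).toFinset, fun x v => by simp⟩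

theorem int_mem22 {E : Type} [Field E] (O : ValuationSubring E) {z : E} (hz : IsIntegral ℤ z) :
    z ∈ O := by
  have h1 : IsIntegral O z := hz.tower_top
  obtain ⟨y, hy⟩ := IsIntegrallyClosed.isIntegral_iff.mp h1
  rw [← hy]
  exact y.2

/-- The valuation ring of a prime of a number field below a valuation ring `O`. -/
theorem val_below22 {E : Type} [Field E] (O : ValuationSubring E) {L : Type} [Field L]
    [NumberField L] (ι : L →+* E) (P : Pr L)
    (hP : ∀ b : 𝓞 L, b ∈ P.asIdeal ↔ O.valuation (ι b) < 1) :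
    (∀ z : L, P.valuation L z ≤ 1 → ι z ∈ O) ∧
      ∀ z : L, O.valuation (ι z) < 1 → P.valuation L z < 1 := by
  have hint : ∀ b : 𝓞 L, ι b ∈ O := fun b =>
    int_mem22 O ((RingOfIntegers.isIntegral_coe b).map (ι.toIntAlgHom))
  have h1 : ∀ z : L, P.valuation L z ≤ 1 → ι z ∈ O := by
    intro z hz
    obtain ⟨n, d, hnd⟩ := P.exists_primeCompl_mul_eq_of_integer z hz
    have hd : O.valuation (ι (d : 𝓞 L)) = 1 := by
      refine le_antisymm ((O.valuation_le_one_iff _).2 (hint d)) ?_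
      by_contra hlt
      exact d.2 ((hP _).2 (not_le.1 hlt))
    have h2 := congrArg (fun x => O.valuation (ι x)) hnd
    simp only [map_mul] at h2
    have h3 : O.valuation (ι z) * O.valuation (ι (d : 𝓞 L)) = O.valuation (ι (n : 𝓞 L)) := h2
    rw [hd, mul_one] at h3
    rw [← O.valuation_le_one_iff, h3]
    exact (O.valuation_le_one_iff _).2 (hint n)
  refine ⟨h1, fun z hz => ?_⟩
  by_contra hcon
  rw [not_lt] at hcon
  have hz0 : z ≠ 0 := by
    rintro rfl
    rw [map_zero] at hcon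
    exact absurd hcon (not_le.2 zero_lt_one)
  have h2 := h1 z⁻¹ (by
    rw [map_inv₀]
    exact inv_le_one_of_one_le₀ hcon)
  rw [← O.valuation_le_one_iff, map_inv₀, map_inv₀,
    inv_le_one₀ (zero_lt_iff.2 ((Valuation.ne_zero_iff _).2 ((_root_.map_ne_zero _).2 hz0)))] at h2
  exact absurd hz (not_lt.2 h2)

open scoped Classical in
/-- The set of primes of a positive density is not contained in a finite set. -/
theorem exists_notMem22 {k : Type} [Field k] [NumberField k] {δ C : ℝ} (hδ : 0 < δ)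
    {Q : Set (Pr k)} (B : ℕ → Finset (Pr k))
    (h : ∀ x : ℕ, 2 ≤ x → |∑ v ∈ (B x).filter (fun v => v ∈ Q), (1 : ℝ) / nm v -
      δ * Real.log (Real.log x)| ≤ C) (Bad : Set (Pr k)) (hBad : Bad.Finite) :
    ∃ v ∈ Q, v ∉ Bad := by
  classical
  by_contra hcon
  push Not at hcon
  obtain ⟨x, hx2, hx⟩ : ∃ x : ℕ, 2 ≤ x ∧
      C + ∑ v ∈ hBad.toFinset, (1 : ℝ) / nm v < δ * Real.log (Real.log x) := by
    have h1 : Filter.Tendsto (fun x : ℕ => δ * Real.log (Real.log x)) Filter.atTop Filter.atTop :=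
      (Real.tendsto_log_atTop.comp (Real.tendsto_log_atTop.comp
        tendsto_natCast_atTop_atTop)).const_mul_atTop hδ
    obtain ⟨x, h3, h4⟩ := ((h1.eventually_gt_atTop (C + ∑ v ∈ hBad.toFinset, (1 : ℝ) / nm v)).and
      (Filter.eventually_ge_atTop 2)).exists
    exact ⟨x, h4, h3⟩
  have h1 := (abs_le.1 (h x hx2)).1
  have h2 : ∑ v ∈ (B x).filter (fun v => v ∈ Q), (1 : ℝ) / nm v ≤
      ∑ v ∈ hBad.toFinset, (1 : ℝ) / nm v := by
    refine Finset.sum_le_sum_of_subset_of_nonneg ?_ fun v _ _ => by positivity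
    intro v hv
    rw [Set.Finite.mem_toFinset]
    exact hcon v (Finset.mem_filter.1 hv).2
  linarith

/-! ## Maximal families -/

theorem exists_max22 {U : Type} (A : Set U) (r : U → U → Prop) (M : ℕ)
    (h : ∀ w : Fin (M + 1) → U, (∀ i, w i ∈ A) → ∃ i j, i ≠ j ∧ r (w i) (w j))
    (hrefl : ∀ a ∈ A, r a a) (hsymm : ∀ a b, r a b → r b a) :
    ∃ T : Finset U, (∀ t ∈ T, t ∈ A) ∧ ∀ w ∈ A, ∃ t ∈ T, r w t := by
  classical
  by_contra hcon
  push Not at hcon
  have key : ∀ m : ℕ, ∃ s : Finset U, s.card = m ∧ (∀ t ∈ s, t ∈ A) ∧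
      ∀ a ∈ s, ∀ b ∈ s, a ≠ b → ¬ r a b := by
    intro m
    induction m with
    | zero => exact ⟨∅, rfl, by simp, by simp⟩
    | succ m ih =>
      obtain ⟨s, hs, hsA, hsr⟩ := ih
      obtain ⟨w, hw, hwr⟩ := hcon s hsA
      by_cases hws : w ∈ s
      · exact absurd (hrefl w hw) (hwr w hws)
      · refine ⟨insert w s, by rw [Finset.card_insert_of_notMem hws, hs], ?_, ?_⟩
        · intro t ht
          rcases Finset.mem_insert.1 ht with rfl | ht
          · exact hw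
          · exact hsA t ht
        · intro a ha b hb hab
          rcases Finset.mem_insert.1 ha with ha' | ha'
          · rcases Finset.mem_insert.1 hb with hb' | hb'
            · exact absurd (ha'.trans hb'.symm) hab
            · rw [ha']
              exact hwr b hb'
          · rcases Finset.mem_insert.1 hb with hb' | hb'
            · rw [hb']
              exact fun h => hwr a ha' (hsymm _ _ h)
            · exact hsr a ha' b hb' hab
  obtain ⟨s, hs, hsA, hsr⟩ := key (M + 1)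
  let e : Fin (M + 1) ≃ s := (Fintype.equivFinOfCardEq (by rw [Fintype.card_coe, hs])).symm
  obtain ⟨i, j, hij, hr⟩ := h (fun i => (e i : U)) fun i => hsA _ (e i).2
  exact hsr _ (e i).2 _ (e j).2 (fun h => hij (e.injective (Subtype.ext h))) hr

/-! ## Finitely many fixed classes -/

section fixed

variable {k K0 E U : Type} [Field k] [NumberField k] [Field K0] [Field E] [Field U] [Algebra k K0]
    [Algebra k E] [Algebra E U] [Algebra K0 U] [Algebra k U] [IsScalarTower k E U]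
    [IsScalarTower k K0 U]

omit [NumberField k] [Algebra k K0] [IsScalarTower k E U] [IsScalarTower k K0 U] in
/-- an element which fixes a class has powers which fix it -/
theorem fix_pow22 (φ : U ≃+* U) (g : E ≃ₐ[k] E)
    (hE : ∀ e : E, φ (algebraMap E U e) = algebraMap E U (g e))
    (hK : ∀ x : K0, φ (algebraMap K0 U x) = algebraMap K0 U x) {w : U}
    (hw0 : w ≠ 0) (hw : φ w * w⁻¹ ∈ L0 E K0 (U := U)) (m : ℕ) :
    (φ ^ m) w * w⁻¹ ∈ L0 E K0 (U := U) := by
  induction m with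
  | zero =>
    rw [pow_zero, RingAut.one_apply, mul_inv_cancel₀ hw0]
    exact one_mem _
  | succ m ih =>
    have h1 : (φ ^ (m + 1)) w * w⁻¹ = φ ((φ ^ m) w * w⁻¹) * (φ w * w⁻¹) := by
      have h2 : φ w ≠ 0 := (map_ne_zero φ).2 hw0
      rw [pow_succ', RingAut.mul_apply, map_mul, map_inv₀]
      field_simp
    rw [h1]
    exact mul_mem (map_L0_99 φ g hE hK ih) hw

/-- **A power of a Frobenius element has finitely many fixed classes.** -/
theorem frob_fix22 {h : K0} {r : U} (G : Geo k K0 E U h r) :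
    ∃ S : Finset E, (∀ s ∈ S, s ≠ 0) ∧
    ∀ (c : k) (Φ : (E ≃ₐ[k] E) →* (U ≃+* U)), Act (K0 := K0) r c Φ →
    ∀ (O : ValuationSubring E) (F : E ≃ₐ[k] E) (p f : ℕ), IsFrobAt O F.toRingEquiv p f →
    (∀ s ∈ S, O.valuation s = 1) → ∃ T : Finset U, ∀ (w : U) (j : ℕ),
      UR E K0 (2 ^ j) w → Φ F w * w⁻¹ ∈ L0 E K0 (U := U) →
        ∃ t ∈ T, t ≠ 0 ∧ w * t⁻¹ ∈ L0 E K0 (U := U) := by
  classical
  have hcl := G.clE
  have hcE : CharZero E := charZero_of_injective_algebraMap (algebraMap k E).injective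
  have halg := G.algE
  obtain ⟨Z, S, hZY, hS, hmain⟩ := finite_fixed22 (L0 E K0 (U := U)) G.ff
  refine ⟨S, hS, fun c Φ hΦ O F p f hF hSO => ?_⟩
  -- a power of `F` fixes `Z`
  obtain ⟨LZ, hLZ, hLZ'⟩ := exists_cont29 hΦ.cont Z
  obtain ⟨α, hα⟩ := Field.exists_primitive_element k LZ
  obtain ⟨n, hn, hnα⟩ := hF.orb (α : E)
  have hfixn : ∀ x ∈ LZ, (F ^ n) x = x := by
    have h1 : ∀ x ∈ k⟮α⟯, (F ^ n) (x : E) = x := by
      intro x hx
      induction hx using IntermediateField.adjoin_induction with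
      | mem x hx =>
        rw [Set.mem_singleton_iff] at hx
        rw [hx, iter29]
        exact hnα
      | algebraMap x => exact (F ^ n).commutes x
      | add x y _ _ hx hy =>
        change (F ^ n) ((x : E) + y) = x + y
        rw [map_add, hx, hy]
      | inv x _ hx =>
        change (F ^ n) ((x : E)⁻¹) = (x : E)⁻¹
        rw [map_inv₀, hx]
      | mul x y _ _ hx hy =>
        change (F ^ n) ((x : E) * y) = x * y
        rw [map_mul, hx, hy]
    intro x hx
    exact h1 ⟨x, hx⟩ (by rw [hα]; exact mem_top)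
  obtain ⟨M, hM⟩ := hmain O (F ^ n).toRingEquiv p (f * n) (Φ (F ^ n)) (frob_pow29 hF hn) hSO
    (fun c => hΦ.const _ c) (hLZ' _ hfixn)
  obtain ⟨T, hT, hT'⟩ := exists_max22 {w : U | (∃ j, UR E K0 (2 ^ j) w) ∧
    Φ F w * w⁻¹ ∈ L0 E K0 (U := U)} (fun a b => a * b⁻¹ ∈ L0 E K0 (U := U)) M (by
      intro w hw
      refine hM w (fun i => (hw i).1) fun i => ?_
      obtain ⟨j, hj⟩ := (hw i).1
      rw [map_pow]
      exact fix_pow22 (Φ F) F (hΦ.const F) (hΦ.fixK F) hj.1 (hw i).2 n) (by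
      rintro a ⟨⟨j, hj⟩, -⟩
      rw [mul_inv_cancel₀ hj.1]
      exact one_mem _) (by
      intro a b hab
      have h1 : b * a⁻¹ = (a * b⁻¹)⁻¹ := by rw [mul_inv, inv_inv, mul_comm]
      rw [h1]
      exact inv_mem hab)
  refine ⟨T, fun w j hw hfw => ?_⟩
  obtain ⟨t, ht, htw⟩ := hT' w ⟨⟨j, hw⟩, hfw⟩
  obtain ⟨⟨j', hj'⟩, -⟩ := hT t ht
  exact ⟨t, ht, hj'.1, htw⟩

end fixed

/-! ## The theorem -/

/-- **BLOCK W4.** -/
theorem w4_of : StmtW3 → StmtFR → StmtW4 := by
  classical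
  intro hW3 hFR k K0 E U _ _ _ _ _ _ _ _ _ _ _ _ h r G c Φ hc hΦ L hL x
  have hcl := G.clE
  have hcE : CharZero E := charZero_of_injective_algebraMap (algebraMap k E).injective
  have halg := G.algE
  have hclo : IsAlgClosure k E := ⟨inferInstance, inferInstance⟩
  have hnor : Normal k E := IsAlgClosure.normal k E
  obtain ⟨S, hS, hfrob⟩ := frob_fix22 G
  obtain ⟨Bad1, hBad1, hAR⟩ := stmtAR k E S ∅ hS
  -- the normal closure
  obtain ⟨L', hLL', hfd, hno⟩ : ∃ L' : IntermediateField k E, L ≤ L' ∧ FiniteDimensional k L' ∧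
      Normal k L' := ⟨IntermediateField.normalClosure k L E, IntermediateField.le_normalClosure L,
        inferInstance, inferInstance⟩
  have hgal : IsGalois k L' := ⟨⟩
  have hnf : NumberField L' := NumberField.of_module_finite k L'
  have hres : ∀ (g : E ≃ₐ[k] E) (y : L'), ((g.restrictNormal L' y : L') : E) = g y :=
    fun g y => g.restrictNormal_commutes L' y
  let x' : L' ≃ₐ[k] L' := x.restrictNormal L'
  let C : Set (L' ≃ₐ[k] L') := {σ | ∃ γ : L' ≃ₐ[k] L',
    Subgroup.zpowers (γ * σ * γ⁻¹) = Subgroup.zpowers x'}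
  have hconj : ∀ (γ σ τ : L' ≃ₐ[k] L'), Subgroup.zpowers τ = Subgroup.zpowers σ →
      Subgroup.zpowers (γ * τ * γ⁻¹) = Subgroup.zpowers (γ * σ * γ⁻¹) := by
    intro γ σ τ hτ
    have h1 : ∀ ρ : L' ≃ₐ[k] L', Subgroup.zpowers (γ * ρ * γ⁻¹) =
        (Subgroup.zpowers ρ).map (MulAut.conj γ).toMonoidHom := by
      intro ρ
      rw [MonoidHom.map_zpowers]
      rfl
    rw [h1, h1, hτ]
  obtain ⟨B, hB⟩ := exists_B22 k
  obtain ⟨C₀, Bad2, Q, hBad2, hQ, hsum⟩ := hW3 k L' C (by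
    rintro σ ⟨γ, hγ⟩ τ hτ
    exact ⟨γ, by rw [hconj γ σ τ hτ, hγ]⟩) (by
    rintro σ ⟨γ, hγ⟩ g
    refine ⟨γ * g⁻¹, ?_⟩
    rw [← hγ]
    congr 1
    group) B hB
  have hδ : 0 < (Nat.card C : ℝ) / Nat.card (L' ≃ₐ[k] L') := by
    have h1 : 0 < Nat.card C := by
      have : Nonempty C := ⟨⟨x', 1, by simp⟩⟩
      exact Nat.card_pos
    have h2 : 0 < Nat.card (L' ≃ₐ[k] L') := Nat.card_pos
    positivity
  obtain ⟨v, hvQ, hvB⟩ := exists_notMem22 hδ B hsum (Bad1 ∪ Bad2) (hBad1.union hBad2)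
  obtain ⟨O, F, p, f, hD⟩ := hFR k E v
  -- the prime of `L'` below `O`
  have hmemO : ∀ b : 𝓞 L', ((b : L') : E) ∈ O := fun b =>
    int_mem22 O ((RingOfIntegers.isIntegral_coe b).map (L'.val.restrictScalars ℤ))
  let ρ : 𝓞 L' →+* O := ((algebraMap L' E).comp (algebraMap (𝓞 L') L')).codRestrict
    O.toSubring hmemO
  let I : Ideal (𝓞 L') := (IsLocalRing.maximalIdeal O).comap ρ
  have hI : ∀ b : 𝓞 L', b ∈ I ↔ O.valuation ((b : L') : E) < 1 := by
    intro b
    rw [Ideal.mem_comap, O.valuation_lt_one_iff]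
    rfl
  have hval : ∀ a : 𝓞 k, O.valuation (algebraMap k E (a : k)) < 1 ↔ a ∈ v.asIdeal := by
    intro a
    rw [← HeightOneSpectrum.valuation_lt_one_iff_mem (K := k) v a]
    rcases eq_or_ne (a : k) 0 with h0 | h0
    · rw [h0, map_zero, map_zero]
      have h1 : v.valuation k (algebraMap (𝓞 k) k a) = 0 := by
        rw [show (algebraMap (𝓞 k) k a) = 0 from h0, map_zero]
      exact ⟨fun _ => lt_of_le_of_lt h1.le zero_lt_one, fun _ => zero_lt_one⟩
    · have h1 := hD.above ((a : k)⁻¹)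
      rw [map_inv₀, map_inv₀, ← O.valuation_le_one_iff, map_inv₀,
        inv_le_one₀ (zero_lt_iff.2 ((Valuation.ne_zero_iff _).2 ((_root_.map_ne_zero _).2 h0))),
        inv_le_one₀ (zero_lt_iff.2 ((Valuation.ne_zero_iff _).2 h0))] at h1
      rw [← not_le, ← not_le, h1]
  have hcomap : I.comap (algebraMap (𝓞 k) (𝓞 L')) = v.asIdeal := by
    ext a
    rw [Ideal.mem_comap, hI, ← hval]
    rfl
  have hIp : I.IsPrime := Ideal.IsPrime.comap ρ
  have hIb : I ≠ ⊥ := by
    intro h0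
    apply v.ne_bot
    rw [← hcomap, h0, eq_bot_iff]
    intro a ha
    rw [Ideal.mem_comap, Ideal.mem_bot] at ha
    rw [Ideal.mem_bot]
    exact (FaithfulSMul.algebraMap_injective (𝓞 k) (𝓞 L')) (by rw [ha, map_zero])
  obtain ⟨hO1, hO2⟩ := val_below22 O (algebraMap L' E) ⟨I, hIp, hIb⟩ hI
  have hFC : F.restrictNormal L' ∈ C := by
    refine (hQ v (fun h => hvB (Or.inr h)) ⟨I, hIp, hIb⟩ (F.restrictNormal L') hcomap ?_).1 hvQ
    intro z hz
    apply hO2
    have h1 := hD.frob.frob _ (hO1 z hz)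
    rw [← hD.norm] at h1
    have h2 : algebraMap L' E (F.restrictNormal L' z - z ^ nm v) =
        F.toRingEquiv (algebraMap L' E z) - (algebraMap L' E z) ^ nm v := by
      rw [map_sub, map_pow]
      congr 1
      exact hres F z
    rw [h2]
    exact h1
  obtain ⟨γ', hγ'⟩ := hFC
  obtain ⟨γ, hγ⟩ := AlgEquiv.restrictNormalHom_surjective (F := k) (K₁ := L') E γ'
  have hγ1 : γ.restrictNormal L' = γ' := hγ
  obtain ⟨i, hi, hix⟩ : ∃ i : ℕ, 0 < i ∧ x' = (γ' * F.restrictNormal L' * γ'⁻¹) ^ i := by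
    have h1 : x' ∈ Subgroup.zpowers (γ' * F.restrictNormal L' * γ'⁻¹) := by
      rw [hγ']
      exact Subgroup.mem_zpowers x'
    have h2 : IsOfFinOrder (γ' * F.restrictNormal L' * γ'⁻¹) := isOfFinOrder_of_finite _
    rw [← h2.mem_powers_iff_mem_zpowers] at h1
    obtain ⟨i, hi⟩ := h1
    refine ⟨i + orderOf (γ' * F.restrictNormal L' * γ'⁻¹), by
      have := h2.orderOf_pos
      omega, ?_⟩
    rw [pow_add, pow_orderOf_eq_one, mul_one]
    exact hi.symm
  obtain ⟨T, hT⟩ := hfrob c Φ hΦ O (F ^ i) p (f * i) (frob_pow29 hD.frob hi)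
    (hAR v (fun h => hvB (Or.inl h)) O hD.above).1
  refine ⟨γ * F ^ i * γ⁻¹, ?_, T.image (Φ γ), ?_⟩
  · intro z hz
    have hhom : ∀ g g' : E ≃ₐ[k] E, (g * g').restrictNormal L' =
        g.restrictNormal L' * g'.restrictNormal L' := fun g g' =>
      map_mul (AlgEquiv.restrictNormalHom (F := k) (K₁ := E) L') g g'
    have hpow : (F ^ i).restrictNormal L' = (F.restrictNormal L') ^ i :=
      map_pow (AlgEquiv.restrictNormalHom (F := k) (K₁ := E) L') F i
    have hinv : (γ⁻¹).restrictNormal L' = (γ.restrictNormal L')⁻¹ :=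
      map_inv (AlgEquiv.restrictNormalHom (F := k) (K₁ := E) L') γ
    have h1 : (γ * F ^ i * γ⁻¹).restrictNormal L' = x' := by
      rw [hhom, hhom, hpow, hinv, hγ1, hix, conj_pow]
    have h2 := hres (γ * F ^ i * γ⁻¹) ⟨z, hLL' hz⟩
    rw [h1] at h2
    rw [← h2]
    exact hres x ⟨z, hLL' hz⟩
  · intro w j hw hfw
    have hw0 := hw.1
    have hinv : ∀ u : U, Φ γ (Φ γ⁻¹ u) = u := by
      intro u
      rw [← RingAut.mul_apply, ← map_mul, mul_inv_cancel, map_one]
      rfl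
    have hinv' : ∀ u : U, Φ γ⁻¹ (Φ γ u) = u := by
      intro u
      rw [← RingAut.mul_apply, ← map_mul, inv_mul_cancel, map_one]
      rfl
    have hUR : UR E K0 (2 ^ j) (Φ γ⁻¹ w) :=
      map_UR99 G.ff (Φ γ⁻¹) (Φ γ) γ⁻¹ (hΦ.const _) (hΦ.fixK _)
        (fun e => hΦ.const _ e) (hΦ.fixK _) hinv' hinv hw
    have hfw' : Φ (F ^ i) (Φ γ⁻¹ w) * (Φ γ⁻¹ w)⁻¹ ∈ L0 E K0 (U := U) := by
      have h1 : Φ (F ^ i) (Φ γ⁻¹ w) * (Φ γ⁻¹ w)⁻¹ = Φ γ⁻¹ (Φ (γ * F ^ i * γ⁻¹) w * w⁻¹) := by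
        rw [map_mul (Φ γ⁻¹), map_inv₀, map_mul Φ, map_mul Φ, RingAut.mul_apply, RingAut.mul_apply,
          hinv']
      rw [h1]
      exact map_L0_99 (Φ γ⁻¹) γ⁻¹ (hΦ.const _) (hΦ.fixK _) hfw
    obtain ⟨t, ht, ht0, htw⟩ := hT _ j hUR hfw'
    refine ⟨Φ γ t, Finset.mem_image_of_mem _ ht, (map_ne_zero _).2 ht0, ?_⟩
    have h1 : w * (Φ γ t)⁻¹ = Φ γ (Φ γ⁻¹ w * t⁻¹) := by
      rw [map_mul, map_inv₀, hinv]
    rw [h1]
    exact map_L0_99 (Φ γ) γ (hΦ.const _) (hΦ.fixK _) htw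

end Pool.Agent.Helper22.M
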