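import Pool.Agent.Helper45.L.K1a
import Pool.Agent.SC.Weights
import Pool.Agent.SC.G5
import Pool.Agent.SC.CoverKur0
import Pool.Agent.Helper17.FF.PicDiv

/-!
# Project M, block W4, first part: finitely many classes fixed by a Frobenius element
-/

set_option autoImplicit false

namespace Pool.Agent.Helper22.M

open VC IntermediateField Module Pool.Agent.SC Pool.Agent.L

/-- `w` is an `n`-th root of a function of `Y` all of whose orders are divisible by `n`. -/
def RtY {E U : Type} [Field E] [Field U] [Algebra E U] (Y : IntermediateField E U) (n : ℕ) (w : U) :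
    Prop :=
  w ≠ 0 ∧ ∃ f : Y, (f : U) = w ^ n ∧ ∀ P : Place E Y, (n : ℤ) ∣ ord P.ring f

theorem ideal_pow_inj22 {R : Type*} [CommRing R] [IsDedekindDomain R] {I J : Ideal R} {n : ℕ}
    (hn : 0 < n) (h : I ^ n = J ^ n) : I = J := by
  by_cases hI : I = ⊥
  · rw [hI, Ideal.bot_pow hn.ne'] at h
    have h2 : J = ⊥ := by
      have h3 : J ^ n = 0 := by rw [← h]; rfl
      exact (pow_eq_zero_iff hn.ne').1 h3
    rw [hI, h2]
  by_cases hJ : J = ⊥
  · rw [hJ, Ideal.bot_pow hn.ne'] at h
    have h3 : I ^ n = 0 := by rw [h]; rfl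
    exact absurd ((pow_eq_zero_iff hn.ne').1 h3) hI
  have h1 := congrArg UniqueFactorizationMonoid.normalizedFactors h
  rw [UniqueFactorizationMonoid.normalizedFactors_pow,
    UniqueFactorizationMonoid.normalizedFactors_pow] at h1
  have h2 : UniqueFactorizationMonoid.normalizedFactors I =
      UniqueFactorizationMonoid.normalizedFactors J := nsmul_right_injective hn.ne' h1
  have h3 := UniqueFactorizationMonoid.prod_normalizedFactors hI
  have h4 := UniqueFactorizationMonoid.prod_normalizedFactors hJ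
  rw [h2] at h3
  exact associated_iff_eq.1 (h3.symm.trans h4)

/-- **Finitely many classes of order a power of two are fixed by a Frobenius element.** -/
theorem finite_fixed22 {E U : Type} [Field E] [IsAlgClosed E] [CharZero E] [Field U] [Algebra E U]
    (Y : IntermediateField E U) (hY : IsFunctionField E Y) :
    ∃ (Z : Finset U) (S : Finset E), (∀ z ∈ Z, z ∈ Y) ∧ (∀ s ∈ S, s ≠ 0) ∧
      ∀ (O : ValuationSubring E) (σ : E ≃+* E) (p f : ℕ) (h : U ≃+* U), IsFrobAt O σ p f →
        (∀ s ∈ S, O.valuation s = 1) → (∀ c, h (algebraMap E U c) = algebraMap E U (σ c)) →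
        (∀ z ∈ Z, h z = z) →
        ∃ M : ℕ, ∀ w : Fin (M + 1) → U, (∀ i, ∃ j, RtY Y (2 ^ j) (w i)) →
          (∀ i, h (w i) * (w i)⁻¹ ∈ Y) → ∃ i j, i ≠ j ∧ w i * (w j)⁻¹ ∈ Y := by
  classical
  have hRN := FF.riemann hY
  obtain ⟨P0⟩ : Nonempty (Place E Y) := by
    have hN2 := hY
    obtain ⟨t, ht, -⟩ := hN2
    obtain ⟨P, -⟩ := exists_place hY ht
    exact ⟨P⟩
  obtain ⟨hDed, hFrac⟩ := isDedekind_ringAway hY hRN P0
  have hB := onePt_ringAway hY hRN P0
  let jY : Y →+* U := algebraMap Y U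
  let iBU : Algebra (ringAway P0) U := (jY.comp (algebraMap (ringAway P0) Y)).toAlgebra
  have hTB : @IsScalarTower E (ringAway P0) U Algebra.toSMul Algebra.toSMul Algebra.toSMul :=
    IsScalarTower.of_algebraMap_eq fun x => rfl
  have hinj : Function.Injective (algebraMap (ringAway P0) U) := by
    intro x y hxy
    have h1 : ((x : Y) : U) = ((y : Y) : U) := hxy
    exact Subtype.ext (Subtype.ext h1)
  have hBY : ∀ b : ringAway P0, algebraMap (ringAway P0) U b ∈ Y := fun b => (b : Y).2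
  obtain ⟨Eb, Fs, S, hS, hEF, hO⟩ := exists_model hB
  refine ⟨Fs.image (algebraMap (ringAway P0) U), insert (2 : E) S, ?_, ?_, ?_⟩
  · intro z hz
    obtain ⟨b, -, rfl⟩ := Finset.mem_image.1 hz
    exact hBY b
  · intro s hs
    rcases Finset.mem_insert.1 hs with rfl | hs
    · exact two_ne_zero
    · exact hS s hs
  intro O σ p f h hF hSO hσ hZ
  obtain ⟨hE, hDedb⟩ := hO O fun s hs => hSO s (Finset.mem_insert_of_mem hs)
  have h2O : O.valuation ((2 : ℕ) : E) = 1 := by
    rw [Nat.cast_two]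
    exact hSO _ (Finset.mem_insert_self _ _)
  have hfix : ∀ m, h (algebraMap (ringAway P0) U (Eb m)) = algebraMap (ringAway P0) U (Eb m) := by
    have key : ∀ x ∈ Submonoid.closure (Fs : Set (ringAway P0)),
        h (algebraMap (ringAway P0) U x) = algebraMap (ringAway P0) U x := by
      intro x hx
      induction hx using Submonoid.closure_induction with
      | mem x hx => exact hZ _ (Finset.mem_image_of_mem _ hx)
      | one => rw [map_one, map_one]
      | mul x y _ _ hx hy => rw [map_mul, map_mul, hx, hy]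
    exact fun m => key _ (hEF m)
  have hh : Fx Eb σ h := ⟨hσ, hfix⟩
  set γ : ringAway P0 ≃+* ringAway P0 := hh.equiv hinj with hγ
  have hγm : ∀ b, algebraMap (ringAway P0) U (γ b) = h (algebraMap (ringAway P0) U b) := by
    intro b
    rw [hγ, Fx.equiv_apply, ← hh.map]
  have hγσ : ∀ c, γ (algebraMap E (ringAway P0) c) = algebraMap E (ringAway P0) (σ c) := by
    intro c
    apply hinj
    rw [hγm, ← IsScalarTower.algebraMap_apply, ← IsScalarTower.algebraMap_apply, hσ]
  have hγE : ∀ m, γ (Eb m) = Eb m := fun m => hinj (by rw [hγm, hh.basis])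
  obtain ⟨M, hM⟩ := finite_frob hB hE hF.prime hF.pos hγσ hγE hF.residue hF.stable hF.frob
  have R : R7.RedProps hB hE 2 :=
    ⟨fun hI hJ => redI_mul hB hE hI hJ, fun hI => redI_ne_bot hB hE hI,
      fun hf => redI_span hB hE hf,
      fun hI h1 h2 => principal_of_red hB hE hF.rank Nat.prime_two h2O hI h1 h2⟩
  refine ⟨M, fun w hw hwh => ?_⟩
  -- the ideal of `w`
  have key1 : ∀ i, ∃ (j : ℕ) (y c : ringAway P0) (I : Ideal (ringAway P0)), y ≠ 0 ∧ c ≠ 0 ∧
      I ≠ ⊥ ∧ I ^ 2 ^ j = Ideal.span {c} ∧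
      algebraMap (ringAway P0) U c = (algebraMap (ringAway P0) U y * w i) ^ 2 ^ j := by
    intro i
    obtain ⟨j, hw0, f, hf, hord⟩ := hw i
    have hn : 0 < 2 ^ j := pow_pos two_pos _
    have hf0 : f ≠ 0 := by
      rintro rfl
      exact pow_ne_zero _ hw0 hf.symm
    obtain ⟨x, y, hy, hxy⟩ := IsFractionRing.div_surjective (A := ringAway P0) f
    have hy0 : y ≠ 0 := nonZeroDivisors.ne_zero hy
    have hyN : (y : Y) ≠ 0 := fun h => hy0 (Subtype.ext h)
    have hxy' : (x : Y) = f * y := by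
      have h1 : (x : Y) / (y : Y) = f := hxy
      rw [← h1]; field_simp
    have hbg : ((y ^ (2 ^ j - 1) * x : ringAway P0) : Y) = (y : Y) ^ 2 ^ j * f := by
      have h1 : ((y ^ (2 ^ j - 1) * x : ringAway P0) : Y) = (y : Y) ^ (2 ^ j - 1) * x := rfl
      rw [h1, hxy']
      conv_rhs => rw [← Nat.sub_add_cancel (Nat.one_le_two_pow (n := j)), pow_succ]
      ring
    have hc0 : y ^ (2 ^ j - 1) * x ≠ 0 := by
      intro h
      have h1 : ((y ^ (2 ^ j - 1) * x : ringAway P0) : Y) = 0 := congrArg Subtype.val h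
      rw [hbg] at h1
      rcases mul_eq_zero.1 h1 with h2 | h2
      · exact pow_ne_zero _ hyN h2
      · exact hf0 h2
    obtain ⟨I, hI⟩ := exists_root_ideal hY hRN P0 (y ^ (2 ^ j - 1) * x) hc0 hn (fun P _ => by
      rw [hbg, FF.ord_mul hY P (pow_ne_zero _ hyN) hf0, FF.ord_pow hY P hyN]
      exact dvd_add (dvd_mul_right _ _) (hord P))
    refine ⟨j, y, y ^ (2 ^ j - 1) * x, I, hy0, hc0, ?_, hI.symm, ?_⟩
    · rintro rfl
      have h1 : (⊥ : Ideal (ringAway P0)) ^ 2 ^ j = ⊥ := zero_pow hn.ne'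
      rw [h1, Ideal.span_singleton_eq_bot] at hI
      exact hc0 hI
    · have h1 : algebraMap (ringAway P0) U (y ^ (2 ^ j - 1) * x) =
          (((y ^ (2 ^ j - 1) * x : ringAway P0) : Y) : U) := rfl
      rw [h1, hbg, mul_pow, ← hf]
      rfl
  choose j y c I hy0 hc0 hI0 hIc hcw using key1
  have hw0 : ∀ i, w i ≠ 0 := fun i => by
    obtain ⟨_, h1, _⟩ := hw i
    exact h1
  have hU0 : ∀ b : ringAway P0, b ≠ 0 → algebraMap (ringAway P0) U b ≠ 0 := fun b hb =>
    (map_ne_zero_iff _ hinj).2 hb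
  -- the class is fixed
  have key2 : ∀ i, SameClass (I i) ((I i).map (γ : ringAway P0 →+* ringAway P0)) := by
    intro i
    have hl := hwh i
    obtain ⟨a, b, hb, hab⟩ := IsFractionRing.div_surjective (A := ringAway P0)
      (⟨h (w i) * (w i)⁻¹, hl⟩ : Y)
    have hb0 : b ≠ 0 := nonZeroDivisors.ne_zero hb
    have hab' : algebraMap (ringAway P0) U a = h (w i) * (w i)⁻¹ * algebraMap (ringAway P0) U b := by
      have h1 : (a : Y) / (b : Y) = ⟨h (w i) * (w i)⁻¹, hl⟩ := hab
      have h2 := congrArg (algebraMap Y U) h1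
      rw [map_div₀] at h2
      have h3 : algebraMap Y U (b : Y) ≠ 0 := hU0 b hb0
      have h4 : algebraMap Y U (a : Y) = algebraMap Y U (⟨h (w i) * (w i)⁻¹, hl⟩ : Y) *
          algebraMap Y U (b : Y) := by
        rw [← h2]
        field_simp
      exact h4
    have ha0 : a ≠ 0 := by
      rintro rfl
      rw [map_zero] at hab'
      exact mul_ne_zero (mul_ne_zero ((map_ne_zero h).2 (hw0 i)) (inv_ne_zero (hw0 i)))
        (hU0 b hb0) hab'.symm
    have hγy : γ (y i) ≠ 0 := (map_ne_zero_iff _ γ.injective).2 (hy0 i)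
    refine ⟨γ (y i) * a, b * y i, mul_ne_zero hγy ha0, mul_ne_zero hb0 (hy0 i), ?_⟩
    refine ideal_pow_inj22 (n := 2 ^ j i) (pow_pos two_pos _) ?_
    rw [mul_pow, mul_pow, ← Ideal.map_pow, hIc, Ideal.map_span, Set.image_singleton,
      Ideal.span_singleton_pow, Ideal.span_singleton_pow, Ideal.span_singleton_mul_span_singleton,
      Ideal.span_singleton_mul_span_singleton]
    congr 2
    apply hinj
    have h1 : algebraMap (ringAway P0) U (((γ : ringAway P0 →+* ringAway P0)) (c i)) =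
        h (algebraMap (ringAway P0) U (c i)) := hγm _
    rw [map_mul, map_mul, h1, map_pow, map_pow, map_mul, map_mul, hcw, map_pow, map_mul, hγm, hab']
    rw [← mul_pow, ← mul_pow]
    congr 1
    have := hw0 i
    field_simp
  obtain ⟨i, i', hii, hred⟩ := hM I hI0 key2
  have htor : ∀ i, ∃ m, R7.cl (I i) (hI0 i) ^ 2 ^ m = 1 := fun i => by
    refine ⟨j i, ?_⟩
    rw [← R7.cl_pow (hI0 i) _ (pow_ne_zero _ (hI0 i)), R7.cl_eq_one_iff, hIc]
    exact ⟨⟨_, rfl⟩⟩
  have hcl := R7.cl_eq_of_red Nat.prime_two R (hI0 i) (hI0 i') (htor i) (htor i') hred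
  rw [R7.cl_eq_iff] at hcl
  obtain ⟨a, b, ha0, hb0, hab⟩ := hcl
  refine ⟨i, i', hii, ?_⟩
  -- equal classes
  have hN : (2 ^ j i * 2 ^ j i') ≠ 0 := mul_ne_zero (pow_ne_zero _ two_ne_zero)
    (pow_ne_zero _ two_ne_zero)
  have h1 : Ideal.span {a ^ (2 ^ j i * 2 ^ j i') * c i ^ 2 ^ j i'} =
      Ideal.span {b ^ (2 ^ j i * 2 ^ j i') * c i' ^ 2 ^ j i} := by
    have h2 := congrArg (fun K => K ^ (2 ^ j i * 2 ^ j i')) hab
    have h3 : I i ^ (2 ^ j i * 2 ^ j i') = Ideal.span {c i ^ 2 ^ j i'} := by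
      rw [pow_mul, hIc, Ideal.span_singleton_pow]
    have h4 : I i' ^ (2 ^ j i * 2 ^ j i') = Ideal.span {c i' ^ 2 ^ j i} := by
      rw [mul_comm, pow_mul, hIc, Ideal.span_singleton_pow]
    simp only [mul_pow, h3, h4, Ideal.span_singleton_pow,
      Ideal.span_singleton_mul_span_singleton] at h2
    exact h2
  rw [Ideal.span_singleton_eq_span_singleton] at h1
  obtain ⟨ε, hε⟩ := h1
  obtain ⟨e, he, hεe⟩ := unit_const8 hB ε.isUnit
  obtain ⟨t, ht⟩ := IsAlgClosed.exists_pow_nat_eq e (Nat.pos_of_ne_zero hN)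
  have ha := hU0 a ha0
  have hb := hU0 b hb0
  have hyi := hU0 _ (hy0 i)
  have hyi' := hU0 _ (hy0 i')
  have hwi := hw0 i
  have hwi' := hw0 i'
  have h2 : (algebraMap (ringAway P0) U a * (algebraMap (ringAway P0) U (y i) * w i) *
      algebraMap E U t) ^ (2 ^ j i * 2 ^ j i') =
      (algebraMap (ringAway P0) U b * (algebraMap (ringAway P0) U (y i') * w i')) ^
        (2 ^ j i * 2 ^ j i') := by
    have h5 := congrArg (algebraMap (ringAway P0) U) hε
    have h6 : algebraMap (ringAway P0) U (algebraMap E (ringAway P0) t) = algebraMap E U t :=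
      (IsScalarTower.algebraMap_apply E (ringAway P0) U t).symm
    rw [hεe, ← ht] at h5
    simp only [map_mul, map_pow, hcw, h6] at h5
    rw [mul_pow, mul_pow, mul_pow _ (algebraMap (ringAway P0) U (y i') * w i')]
    rw [← pow_mul, ← pow_mul, mul_comm (2 ^ j i') (2 ^ j i)] at h5
    exact h5
  obtain ⟨ξ, hξ⟩ := exists_const_of_pow_eq_one (E := E)
    (ζ := algebraMap (ringAway P0) U a * (algebraMap (ringAway P0) U (y i) * w i) *
      algebraMap E U t /
      (algebraMap (ringAway P0) U b * (algebraMap (ringAway P0) U (y i') * w i'))) hN (by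
      rw [div_pow, h2]
      exact div_self (pow_ne_zero _ (mul_ne_zero hb (mul_ne_zero hyi' hwi'))))
  have ht0 : algebraMap E U t ≠ 0 := by
    rw [Ne, map_eq_zero]
    rintro rfl
    rw [zero_pow hN] at ht
    exact he ht.symm
  have h3 : w i * (w i')⁻¹ = algebraMap E U ξ * algebraMap (ringAway P0) U b *
      algebraMap (ringAway P0) U (y i') / (algebraMap (ringAway P0) U a *
        algebraMap (ringAway P0) U (y i) * algebraMap E U t) := by
    rw [hξ]
    field_simp
  rw [h3]
  exact div_mem (mul_mem (mul_mem (Y.algebraMap_mem ξ) (hBY _)) (hBY _))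
    (mul_mem (mul_mem (hBY _) (hBY _)) (Y.algebraMap_mem t))

end Pool.Agent.Helper22.M
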